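import Pool.Agent.H39.HW.SBas

set_option autoImplicit false
open Classical Finset

namespace Pool.Agent.H83.HW

open Pool.Agent.H39.HW Pool.Agent.H39.HW.Sc

theorem VA_lnge {x : Prm} (hx : Par x) (h1 : S_BLK) {β : ℕ} (hβ : β < x.B) : x.w ≤ ln x.st β := by
  obtain ⟨_, _, _, _, h5, h6, h7, h8⟩ := h1 x hx
  by_cases c1 : β < x.b0
  · exact (h5 β c1).ge
  by_cases c2 : β < x.b1
  · rw [h6 β (by omega) c2]; exact hx.wv.le
  by_cases c3 : β + 1 < x.B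
  · exact (h7 β (by omega) c3).ge
  · exact (h8 β (by omega)).1

theorem VA_lnle {x : Prm} (hx : Par x) (h1 : S_BLK) {β : ℕ} (hβ : β < x.B) :
    ln x.st β ≤ x.v + x.M := by
  obtain ⟨_, _, _, _, h5, h6, h7, h8⟩ := h1 x hx
  have hwv := hx.wv
  by_cases c1 : β < x.b0
  · rw [h5 β c1]; omega
  by_cases c2 : β < x.b1
  · rw [h6 β (by omega) c2]; omega
  by_cases c3 : β + 1 < x.B
  · rw [h7 β (by omega) c3]; omega
  · have := (h8 β (by omega)).2; omega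

theorem VA_muB {x : Prm} (hx : Par x) : 1 / 2 ≤ ((x.B : ℝ) + 2) * x.μ := by
  have h1 := hx.Mmu.1
  have h2 := hx.eta_le
  have h3 : (x.M : ℝ) ≤ x.B := by
    have : x.M ≤ x.B := by
      show x.M ≤ 2 * x.K + 2 * x.J + x.M
      omega
    exact_mod_cast this
  have h4 := hx.m0
  nlinarith

/-- `δ` is tiny -/
theorem VA_delta {x : Prm} (hx : Par x) :
    10 ^ 9 * ((x.B : ℝ) + 2) * x.δ ≤ x.θ ∧ 10 ^ 9 * (x.L : ℝ) * (2 * x.h * x.t) * x.δ ≤ x.θ := by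
  have h1 := hx.d1
  have hL : (1 : ℝ) ≤ x.L := by
    have := hx.Lge
    have : 1 ≤ x.L := by omega
    exact_mod_cast this
  have hh : (0 : ℝ) ≤ x.h := Nat.cast_nonneg _
  have ht : (0 : ℝ) ≤ x.t := Nat.cast_nonneg _
  have hB : (0 : ℝ) ≤ x.B := Nat.cast_nonneg _
  have hd := hx.d0
  set m : ℝ := 2 * x.h * x.t with hm
  have hm0 : 0 ≤ m := by positivity
  have hd9 : 0 ≤ 10 ^ 9 * x.δ := by positivity
  constructor
  · have : (1 : ℝ) * 1 * (x.B + 2) * 1 ≤ (x.L : ℝ) * (m + 2) ^ 2 * (x.B + 2) * (2 * x.h + 2) := by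
      gcongr
      · nlinarith
      · linarith
    have h2 := mul_le_mul_of_nonneg_left this hd9
    calc _ = 10 ^ 9 * x.δ * (1 * 1 * (x.B + 2) * 1) := by ring
      _ ≤ _ := h2
      _ = _ := by ring
      _ ≤ _ := h1
  · have : (x.L : ℝ) * m * 1 * 1 ≤ (x.L : ℝ) * (m + 2) ^ 2 * (x.B + 2) * (2 * x.h + 2) := by
      gcongr
      · nlinarith
      · linarith
      · linarith
    have h2 := mul_le_mul_of_nonneg_left this hd9
    calc _ = 10 ^ 9 * x.δ * (x.L * m * 1 * 1) := by ring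
      _ ≤ _ := h2
      _ = _ := by ring
      _ ≤ _ := h1

set_option maxHeartbeats 1000000 in
theorem t_VA (h1 : S_BLK) (h2 : S_MMD) : S_VA := by
  intro x hx φ
  have hDpos := hx.Dpos
  have hLge : (8 * 10 ^ 8 : ℝ) ≤ x.L := by exact_mod_cast hx.Lge
  have hL0 : (0 : ℝ) < x.L := by linarith
  have hhge : (10000 : ℝ) ≤ x.h := by exact_mod_cast hx.hge
  have ht1 : (1 : ℝ) ≤ x.t := by exact_mod_cast hx.t1
  have hm0 : (0 : ℝ) < 2 * x.h * x.t := by positivity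
  have hb := hx.b0_lt_b1
  have hB := hx.b1_le_B
  have hJ := hx.J1
  have hB0 : (0 : ℝ) ≤ x.B := Nat.cast_nonneg _
  have hmuB := VA_muB hx
  have hdel := VA_delta hx
  have hmu := hx.m0
  have hth := hx.t0
  have heta := hx.eta_le
  have hthle := hx.th_le
  have hd0 := hx.d0
  have hmcast : (((2 * x.h * x.t : ℕ)) : ℝ) = 2 * x.h * x.t := by push_cast; ring
  have hD2 := hx.D2
  -- `2 δ ≤ small * θ μ`
  have hdel2 : 10 ^ 8 * x.δ ≤ x.θ * x.μ := by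
    have a1 : 10 ^ 9 * ((x.B : ℝ) + 2) * x.δ * x.μ ≤ x.θ * x.μ :=
      mul_le_mul_of_nonneg_right hdel.1 hmu.le
    have a2 : 10 ^ 9 * x.δ * (1 / 2) ≤ 10 ^ 9 * x.δ * (((x.B : ℝ) + 2) * x.μ) :=
      mul_le_mul_of_nonneg_left hmuB (by positivity)
    nlinarith
  refine ⟨hx.p1, ?_, ?_, ?_, ?_, ?_, ?_, ?_, ?_, ?_, ?_, ?_, ?_, ?_, ?_, ?_, ?_, ?_, ?_⟩
  · show 2 * x.K + 2 ≤ x.B
    omega
  · intro a ha
    exact hx.mem_R.1 ha
  · show 1 ≤ 2 * x.h
    have := hx.hge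
    omega
  · show 1 ≤ 2 * x.h * x.t
    have a1 := hx.hge
    have a2 := hx.t1
    calc 1 = 1 * 1 := rfl
      _ ≤ 2 * x.h * x.t := Nat.mul_le_mul (by omega) a2
  · intro β hβ
    show (x.μ + 2 * x.δ) * x.D + 2 ≤ ((ln x.st β : ℕ) : ℝ)
    have a1 : (x.w : ℝ) ≤ ln x.st β := by exact_mod_cast VA_lnge hx h1 hβ
    have a2 := hx.ls_ge
    rw [le_div_iff₀ hDpos] at a2
    have a3 : 10 ^ 9 * 1 ≤ x.η * x.θ * x.μ * x.D := by
      refine le_trans ?_ hD2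
      have : (1:ℝ) ≤ (x.B : ℝ) + 1 := by linarith
      nlinarith
    have a4 : 2 * x.δ * x.D ≤ 1 / 100 * (x.θ * x.μ * x.D) := by
      have : 2 * x.δ ≤ 1 / 100 * (x.θ * x.μ) := by nlinarith
      nlinarith
    have a5 : x.η * x.θ * x.μ * x.D ≤ x.θ * x.μ * x.D := by
      have : 0 ≤ x.θ * x.μ * x.D := by positivity
      nlinarith
    nlinarith
  · intro β hβ
    show ((ln x.st β : ℕ) : ℝ) ≤ 3 * x.μ * x.D
    have a1 : ((ln x.st β : ℕ) : ℝ) ≤ x.v + x.M := by exact_mod_cast VA_lnle hx h1 hβ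
    have a2 := hx.ll_le2
    rw [div_le_iff₀ hDpos] at a2
    have a3 := hx.Msmall
    rw [div_le_iff₀ hDpos] at a3
    have a4 : x.η * x.θ * x.μ / 10 ^ 9 * x.D ≤ 1 * (x.μ * x.D) := by
      have : x.η * x.θ / 10 ^ 9 ≤ 1 := by
        have : x.η * x.θ ≤ 1 * 1 := mul_le_mul (by linarith) (by linarith) hth.le (by norm_num)
        linarith
      have h0 : 0 ≤ x.μ * x.D := by positivity
      calc x.η * x.θ * x.μ / 10 ^ 9 * x.D = (x.η * x.θ / 10 ^ 9) * (x.μ * x.D) := by ring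
        _ ≤ 1 * (x.μ * x.D) := mul_le_mul_of_nonneg_right this h0
    nlinarith
  · exact hx.d0
  · show x.θ / (2 * x.h * x.t) ≤ x.μ
    rw [div_le_iff₀ hm0]
    have a1 := hx.t2
    have a2 := hx.e1
    have a3 : (x.B : ℝ) ≤ x.t := by
      have b1 : (1 : ℝ) * x.B ≤ 10 ^ 9 * (x.L : ℝ) ^ 2 * x.B := by
        refine mul_le_mul_of_nonneg_right ?_ hB0
        have : (1 : ℝ) ≤ (x.L : ℝ) ^ 2 := one_le_pow₀ (by linarith)
        linarith
      have b2 : x.ε * x.t ≤ 1 * x.t := mul_le_mul_of_nonneg_right (by linarith) (by linarith)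
      linarith
    have a4 : ((x.B : ℝ) + 2) ≤ 3 * x.t := by linarith
    have a5 : 1 / 2 ≤ 3 * x.t * x.μ := hmuB.trans (mul_le_mul_of_nonneg_right a4 hmu.le)
    have a6 : x.t * x.μ ≤ x.t * x.μ * x.h := by
      have : 0 ≤ x.t * x.μ := by positivity
      nlinarith
    nlinarith
  · show 0 < 1 / (200 * (x.L : ℝ))
    positivity
  · show 1 / (200 * (x.L : ℝ)) ≤ 1 / (32 * (x.L : ℝ))
    apply one_div_le_one_div_of_le (by positivity)
    linarith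
  · show 1 / (32 * (x.L : ℝ)) ≤ 1 / 16
    apply one_div_le_one_div_of_le (by norm_num)
    linarith
  · show 10 ^ 4 * (((2 * x.h * x.t : ℕ) : ℝ) + 2) * (x.B + 2) * (((2 * x.h : ℕ) : ℝ) + 2) * x.δ ≤
      1 / (200 * x.L) * (x.θ / (2 * x.h * x.t))
    rw [hmcast]
    push_cast
    set m : ℝ := 2 * x.h * x.t with hm
    have a1 := hx.d1
    rw [← hm] at a1
    clear_value m
    have hLp := hL0
    generalize (x.L : ℝ) = L at a1 hLp ⊢
    generalize (x.B : ℝ) = B at a1 hB0 ⊢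
    generalize (x.h : ℝ) = h at a1 hhge ⊢
    generalize x.θ = θ at a1 ⊢
    generalize x.δ = δ at a1 hd0 ⊢
    rw [div_mul_div_comm, one_mul, le_div_iff₀ (by positivity)]
    have a2 : 0 ≤ L * (B + 2) * (2 * h + 2) * δ := by positivity
    have a3 : 2 * 10 ^ 6 * ((m + 2) * m) ≤ 10 ^ 9 * ((m + 2) ^ 2) := by nlinarith
    have a4 := mul_le_mul_of_nonneg_right a3 a2
    have e1 : 10 ^ 4 * (m + 2) * (B + 2) * (2 * h + 2) * δ * (200 * L * m)
        = 2 * 10 ^ 6 * ((m + 2) * m) * (L * (B + 2) * (2 * h + 2) * δ) := by ring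
    have e2 : 10 ^ 9 * ((m + 2) ^ 2) * (L * (B + 2) * (2 * h + 2) * δ)
        = 10 ^ 9 * L * (m + 2) ^ 2 * (B + 2) * (2 * h + 2) * δ := by ring
    rw [e1]
    rw [e2] at a4
    exact a4.trans a1
  · show (x.R.card : ℝ) * x.μ + ((2 * x.h * x.t : ℕ) : ℝ) * (x.θ / (2 * x.h * x.t)) = 1
    rw [hmcast, mul_div_cancel₀ _ hm0.ne']
    have a1 := (h2 x hx).1
    have a2 : (x.R.card : ℝ) = (x.M : ℝ) + 2 * x.J - 1 := by
      rw [a1, Nat.cast_sub (by omega)]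
      push_cast; ring
    rw [a2]
    unfold Prm.θ
    ring
  · show ((2 * x.h * x.t : ℕ) : ℝ) * (x.θ / (2 * x.h * x.t) + x.δ) * x.D + 2 ≤ ((x.J * x.w : ℕ) : ℝ)
    rw [hmcast, mul_add, mul_div_cancel₀ _ hm0.ne']
    have := hx.xi
    push_cast
    linarith
  · show x.J * x.w ≤ x.p
    have a1 := hx.KJ
    have a2 := hx.pK'
    have a3 : x.J * x.w ≤ (x.K - 1) * x.w := Nat.mul_le_mul_right _ (by omega)
    omega
  · show 2 * (x.J * x.w) ≤ x.D
    have a1 := hx.N1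
    have a2 := hx.pK
    have a3 : 2 * (x.K + x.J) * x.w = 2 * (x.K * x.w) + 2 * (x.J * x.w) := by ring
    rw [a3] at a1
    omega
  · intro y hy
    show y / x.t < 2 * x.h
    have hy' : y < 2 * x.h * x.t := hy
    exact Nat.div_lt_of_lt_mul (by rw [mul_comm]; exact hy')
  · show 1000 * x.μ ≤ 1 / (200 * x.L) * (x.ε * x.θ / 200)
    have a1 := hx.u1
    rw [div_mul_div_comm, one_mul, le_div_iff₀ (by positivity)]
    have a2 : (x.L : ℝ) ≤ (x.L : ℝ) ^ 4 := by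
      calc (x.L : ℝ) = (x.L : ℝ) ^ 1 := (pow_one _).symm
        _ ≤ (x.L : ℝ) ^ 4 := pow_le_pow_right₀ (by linarith) (by norm_num)
    have a3 : (x.L : ℝ) * x.μ ≤ (x.L : ℝ) ^ 4 * x.μ := mul_le_mul_of_nonneg_right a2 hmu.le
    have a4 : 0 ≤ (x.L : ℝ) * x.μ := by positivity
    nlinarith

end Pool.Agent.H83.HW
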