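import Pool.Agent.H39.HW.SBas

set_option autoImplicit false
open Classical Finset

namespace Pool.Agent.H83.HW

open Pool.Agent.H39.HW Pool.Agent.H39.HW.Sc

theorem VB_card_lab {st : ℕ → ℕ} (h : ∀ β, st β ≤ st (β + 1)) (T : Finset ℕ) :
    (lab st T).card = ∑ β ∈ T, ln st β := by
  have hm : Monotone st := monotone_nat_of_le_succ h
  unfold lab
  rw [Finset.card_biUnion]
  · exact Finset.sum_congr rfl fun β _ => by simp [blk, ln]
  · intro β _ β' _ hne
    show Disjoint (blk st β) (blk st β')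
    rw [Finset.disjoint_left]
    intro n hn hn'
    simp only [blk, Finset.mem_Ico] at hn hn'
    rcases lt_or_gt_of_ne hne with hlt | hlt
    · have := hm (Nat.succ_le_of_lt hlt)
      simp only [Nat.succ_eq_add_one] at this
      omega
    · have := hm (Nat.succ_le_of_lt hlt)
      simp only [Nat.succ_eq_add_one] at this
      omega

/-- the labels of middle blocks are allowed for both types -/
theorem VB_Al {x : Prm} (hx : Par x) {β : ℕ} (h1 : x.b0 ≤ β) (h2 : β < x.b1) (φ : ℕ → ℕ → ℕ)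
    (τ : Bool) : (x.dat φ).Al x.D x.p τ β := by
  have hpK := hx.pK
  have hN1 := hx.N1
  have hb1 : x.b1 = x.b0 + x.M := rfl
  have hst : ∀ γ, x.b0 ≤ γ → γ ≤ x.b1 → x.st γ = x.b0 * x.w + (γ - x.b0) * x.v := by
    intro γ g1 g2
    unfold Prm.st
    split_ifs with c1
    · have : γ = x.b0 := le_antisymm c1 g1
      subst this; simp
    · rfl
  have hb0w : x.b0 * x.w = x.K * x.w + x.J * x.w := by
    show (x.K + x.J) * x.w = _
    ring
  cases τ with
  | true =>
    show (if true = true then x.p + x.J * x.w ≤ x.st β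
      else x.st (β + 1) + x.p + x.J * x.w ≤ x.D + 2 * x.p)
    rw [if_pos rfl, hst β h1 h2.le, hb0w]
    omega
  | false =>
    show (if false = true then x.p + x.J * x.w ≤ x.st β
      else x.st (β + 1) + x.p + x.J * x.w ≤ x.D + 2 * x.p)
    rw [if_neg (by simp), hst (β + 1) (by omega) (by omega), hb0w]
    have h3 : (β + 1 - x.b0) * x.v ≤ x.M * x.v := Nat.mul_le_mul_right _ (by omega)
    have h4 : 2 * (x.K + x.J) * x.w = 2 * (x.K * x.w) + 2 * (x.J * x.w) := by ring
    rw [h4] at hN1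
    omega

theorem t_VB (hB : S_BLK) (hM : S_MMD) (hW : S_WIN) : S_VB := by
  intro x hx φ
  have hDpos := hx.Dpos
  have hb := hx.b0_lt_b1
  have hBB := hx.b1_le_B
  have hmS : ∀ P a β, β ∈ x.S P a ↔ (x.b0 ≤ β ∧ β < x.b1) ∧ (β - x.b0) / x.W = x.win a ∧
      (β - x.b0) % x.L = 4 * x.h ^ 2 + P := by
    intro P a β
    unfold Prm.S
    rw [Finset.mem_filter]
    unfold Prm.mid
    rw [Finset.mem_Ico]
  have hstm : ∀ β, x.st β ≤ x.st (β + 1) := (hB x hx).2.2.1
  have hdisj : ∀ P Q a b, P ≠ Q → Disjoint (x.S P a) (x.S Q b) := by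
    intro P Q a b hPQ
    rw [Finset.disjoint_left]
    intro β h1 h2
    rw [hmS] at h1 h2
    omega
  refine ⟨?_, ?_, ?_, ?_⟩
  · intro P hP a ha β hβ
    have ha' : a ∈ x.R := ha
    have hβ' : β ∈ x.S P a := hβ
    rw [hmS] at hβ'
    obtain ⟨⟨g1, g2⟩, g3, g4⟩ := hβ'
    have hmid : β ∈ x.mid := by unfold Prm.mid; rw [Finset.mem_Ico]; exact ⟨g1, g2⟩
    have hw := (hW x hx a ha').1 β hmid g3
    have hmm := (hM x hx).2 a ha'
    refine ⟨by show β < x.B; omega, hw.1, ?_, ?_, VB_Al hx g1 g2 φ _, ?_⟩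
    · intro hc
      exact ((hmm.1 β).1 hc).2.1 hw.2.1
    · intro hc
      apply hmm.2.2.2
      have : β = sm x.B a a := hc
      rw [← this]
      exact hw.2.1
    · show β ∈ x.F P
      unfold Prm.F
      rw [Finset.mem_filter]
      exact ⟨hmid, Or.inr g4⟩
  · intro P _ Q _ hPQ a _
    exact hdisj P Q a a hPQ
  · intro P _ a _ b _
    show x.S P a = x.S P b ∨ Disjoint (x.S P a) (x.S P b)
    by_cases hab : x.win a = x.win b
    · left
      ext β
      rw [hmS, hmS, hab]
    · right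
      rw [Finset.disjoint_left]
      intro β h1 h2
      rw [hmS] at h1 h2
      exact hab (h1.2.1.symm.trans h2.2.1)
  · intro P hP a ha
    have ha' : a ∈ x.R := ha
    have hP' : P < 2 * x.h := hP
    show ((x.R.filter fun b => x.S P b = x.S P a).card : ℝ) * (16 * (1 / (32 * x.L)) * x.μ) * x.D ≤
      ((lab x.st (x.S P a)).card : ℝ)
    have hq := (hW x hx a ha').2.2.1 P hP'
    have hcard := (hW x hx a ha').2.2.2
    have h1 : (x.R.filter fun b => x.S P b = x.S P a).card ≤ 2 * x.W := by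
      refine le_trans (Finset.card_le_card ?_) hcard
      intro b hb'
      rw [Finset.mem_filter] at hb' ⊢
      refine ⟨hb'.1, ?_⟩
      have hne : (x.S P a).Nonempty := by
        rw [← Finset.card_pos, hq]
        exact hx.q1
      obtain ⟨β, hβ⟩ := hne
      have hβ2 := hβ
      rw [← hb'.2] at hβ2
      rw [hmS] at hβ hβ2
      exact hβ2.2.1.symm.trans hβ.2.1
    have h2 : (lab x.st (x.S P a)).card = x.q * x.v := by
      rw [VB_card_lab hstm, Finset.sum_congr rfl (g := fun _ => x.v), Finset.sum_const, hq,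
        smul_eq_mul]
      intro β hβ
      rw [hmS] at hβ
      exact (hB x hx).2.2.2.2.2.1 β hβ.1.1 hβ.1.2
    rw [h2]
    have hL0 : (0 : ℝ) < x.L := by
      have := hx.Lge
      have : 0 < x.L := by omega
      exact_mod_cast this
    have hmu := hx.m0
    have h3 : ((x.R.filter fun b => x.S P b = x.S P a).card : ℝ) ≤ 2 * (x.L * x.q) := by
      have : (x.R.filter fun b => x.S P b = x.S P a).card ≤ 2 * (x.L * x.q) := h1
      exact_mod_cast this
    have h4 : x.μ * x.D ≤ x.v := by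
      have := hx.mu_le_ll
      rwa [le_div_iff₀ hDpos] at this
    calc ((x.R.filter fun b => x.S P b = x.S P a).card : ℝ) * (16 * (1 / (32 * x.L)) * x.μ) * x.D
        ≤ (2 * (x.L * x.q)) * (16 * (1 / (32 * x.L)) * x.μ) * x.D := by
          gcongr
      _ = x.q * (x.μ * x.D) := by field_simp; ring
      _ ≤ x.q * x.v := by gcongr
      _ = ((x.q * x.v : ℕ) : ℝ) := by push_cast; ring

/-- the number of `i < M` with a given residue -/
theorem VC_count {L M r : ℕ} (hr : r < L) :
    M ≤ ((range M).filter fun i => i % L = r).card * L + L := by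
  have hL : 0 < L := by omega
  have hsub : (range (M / L)).image (fun j => L * j + r) ⊆ (range M).filter fun i => i % L = r := by
    intro i hi
    rw [Finset.mem_image] at hi
    obtain ⟨j, hj, rfl⟩ := hi
    rw [Finset.mem_range] at hj
    rw [Finset.mem_filter, Finset.mem_range]
    constructor
    · have h1 : L * (j + 1) ≤ L * (M / L) := Nat.mul_le_mul_left _ hj
      have h2 : L * (M / L) ≤ M := Nat.mul_div_le M L
      have h3 : L * (j + 1) = L * j + L := by ring
      omega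
    · rw [Nat.mul_add_mod]
      exact Nat.mod_eq_of_lt hr
  have h1 := Finset.card_le_card hsub
  rw [Finset.card_image_of_injective, Finset.card_range] at h1
  · have h2 := Nat.div_add_mod M L
    have h3 := Nat.mod_lt M hL
    have h4 := Nat.mul_le_mul_right L h1
    have h5 : (M / L) * L = L * (M / L) := mul_comm _ _
    omega
  · intro i j hij
    have : L * i + r = L * j + r := hij
    have : L * i = L * j := by omega
    exact Nat.eq_of_mul_eq_mul_left hL this

theorem t_VC (hB : S_BLK) : S_VC := by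
  intro x hx φ
  have hDpos := hx.Dpos
  have hb := hx.b0_lt_b1
  have hBB := hx.b1_le_B
  have hhge := hx.hge
  have hmΦ : ∀ P Q β, β ∈ x.Φ P Q ↔ (x.b0 ≤ β ∧ β < x.b1) ∧ ((β - x.b0) % x.L < 4 * x.h ^ 2 ∧
    (((β - x.b0) % x.L / (2 * x.h) = P ∧ (β - x.b0) % x.L % (2 * x.h) = Q) ∨
     ((β - x.b0) % x.L / (2 * x.h) = Q ∧ (β - x.b0) % x.L % (2 * x.h) = P))) := by
    intro P Q β
    unfold Prm.Φ
    rw [Finset.mem_filter]
    unfold Prm.mid
    rw [Finset.mem_Ico]
  have hstm : ∀ β, x.st β ≤ x.st (β + 1) := (hB x hx).2.2.1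
  refine ⟨?_, ?_, ?_⟩
  · intro P _ Q _
    show x.Φ P Q = x.Φ Q P
    ext β
    rw [hmΦ, hmΦ]
    tauto
  · intro P hP Q hQ β hβ
    have hβ' : β ∈ x.Φ P Q := hβ
    rw [hmΦ] at hβ'
    obtain ⟨⟨g1, g2⟩, g3, g4⟩ := hβ'
    have hmid : β ∈ x.mid := by unfold Prm.mid; rw [Finset.mem_Ico]; exact ⟨g1, g2⟩
    refine ⟨by show β < x.B; omega, VB_Al hx g1 g2 φ _, ?_, ?_⟩
    · show β ∈ x.F P
      unfold Prm.F
      rw [Finset.mem_filter]
      refine ⟨hmid, Or.inl ⟨g3, ?_⟩⟩
      rcases g4 with g4 | g4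
      · exact Or.inl g4.1
      · exact Or.inr g4.2
    · intro a _ hc
      have hc' : β ∈ x.S P a := hc
      unfold Prm.S at hc'
      rw [Finset.mem_filter] at hc'
      omega
  · intro P hP Q hQ
    have hP' : P < 2 * x.h := hP
    have hQ' : Q < 2 * x.h := hQ
    show 2 * (((2 * x.h * x.t : ℕ) : ℝ) * (x.θ / (2 * x.h * x.t) + x.δ)) * x.D + 2 ≤
      ((lab x.st (x.Φ P Q)).card : ℝ)
    have hlab : (lab x.st (x.Φ P Q)).card = (x.Φ P Q).card * x.v := by
      rw [VB_card_lab hstm, Finset.sum_congr rfl (g := fun _ => x.v), Finset.sum_const,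
        smul_eq_mul]
      intro β hβ
      rw [hmΦ] at hβ
      exact (hB x hx).2.2.2.2.2.1 β hβ.1.1 hβ.1.2
    set i0 := P * (2 * x.h) + Q with hi0
    have hi4 : i0 < 4 * x.h ^ 2 := by
      have : (P + 1) * (2 * x.h) ≤ 2 * x.h * (2 * x.h) := Nat.mul_le_mul_right _ hP'
      have e1 : (P + 1) * (2 * x.h) = P * (2 * x.h) + 2 * x.h := by ring
      have e2 : 2 * x.h * (2 * x.h) = 4 * x.h ^ 2 := by ring
      omega
    have hiL : i0 < x.L := by
      rw [hx.L1]
      omega
    have hcount := VC_count (M := x.M) hiL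
    have hTsub : (((range x.M).filter fun i => i % x.L = i0).image fun i => x.b0 + i) ⊆ x.Φ P Q := by
      intro β hβ
      rw [Finset.mem_image] at hβ
      obtain ⟨i, hi, rfl⟩ := hβ
      rw [Finset.mem_filter, Finset.mem_range] at hi
      rw [hmΦ]
      have e1 : x.b0 + i - x.b0 = i := by omega
      rw [e1, hi.2]
      have e2 : x.b1 = x.b0 + x.M := rfl
      have e3 : i0 / (2 * x.h) = P := by
        rw [hi0, mul_comm P, Nat.mul_add_div (by omega), Nat.div_eq_of_lt hQ']
        simp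
      have e4 : i0 % (2 * x.h) = Q := by
        rw [hi0, mul_comm P, Nat.mul_add_mod, Nat.mod_eq_of_lt hQ']
      exact ⟨⟨by omega, by omega⟩, hi4, Or.inl ⟨e3, e4⟩⟩
    have hcardT := Finset.card_le_card hTsub
    rw [Finset.card_image_of_injective _ (fun i j h => by simpa using h)] at hcardT
    have hcL : x.M ≤ (x.Φ P Q).card * x.L + x.L := by
      have := Nat.mul_le_mul_right x.L hcardT
      omega
    rw [hlab]
    push_cast
    have hcL' : (x.M : ℝ) ≤ (x.Φ P Q).card * x.L + x.L := by exact_mod_cast hcL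
    have hLge : (8 * 10 ^ 8 : ℝ) ≤ x.L := by exact_mod_cast hx.Lge
    have hhge' : (10000 : ℝ) ≤ x.h := by exact_mod_cast hhge
    have ht1 : (1 : ℝ) ≤ x.t := by exact_mod_cast hx.t1
    have hm0 : (0 : ℝ) < 2 * x.h * x.t := by positivity
    rw [mul_add, mul_div_cancel₀ _ hm0.ne']
    have hmu := hx.m0
    have hth := hx.t0
    have heta := hx.eta_le
    have hthle := hx.th_le
    have hd0 := hx.d0
    have hv := hx.mu_le_ll
    rw [le_div_iff₀ hDpos] at hv
    have htL := hx.tL
    have hMmu := hx.Mmu.1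
    -- L μ small
    have hLmu : (x.L : ℝ) * x.μ ≤ 1 / 100 := by
      have h1 := hx.u1
      have b1 : (x.L : ℝ) ≤ (x.L : ℝ) ^ 4 := by
        calc (x.L : ℝ) = (x.L : ℝ) ^ 1 := (pow_one _).symm
          _ ≤ (x.L : ℝ) ^ 4 := pow_le_pow_right₀ (by linarith) (by norm_num)
      have b2 : (x.L : ℝ) * x.μ ≤ (x.L : ℝ) ^ 4 * x.μ := mul_le_mul_of_nonneg_right b1 hmu.le
      have b3 : x.ε * x.θ ≤ 1 * 1 :=
        mul_le_mul (by linarith [hx.e1]) (by linarith) hth.le (by norm_num)
      linarith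
    -- D large
    have hDL : 20 * (x.L : ℝ) ≤ x.D := by
      have h1 := hx.D2
      have h2 : (0 : ℝ) ≤ x.B := Nat.cast_nonneg _
      have h3 : x.η * x.θ * x.μ * x.D ≤ 1 * (x.μ * x.D) := by
        have : x.η * x.θ ≤ 1 := by
          have : x.η * x.θ ≤ 1 * 1 := mul_le_mul (by linarith) (by linarith) hth.le (by norm_num)
          linarith
        calc x.η * x.θ * x.μ * x.D = (x.η * x.θ) * (x.μ * x.D) := by ring
          _ ≤ 1 * (x.μ * x.D) := mul_le_mul_of_nonneg_right this (by positivity)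
      have h4 : 1 ≤ x.μ * x.D := by linarith
      have h5 : 20 * (x.L : ℝ) * x.μ ≤ x.D * x.μ := by linarith
      exact le_of_mul_le_mul_right h5 hmu
    have hdel : 10 ^ 9 * (x.L : ℝ) * (2 * x.h * x.t) * x.δ ≤ x.θ := by
      have h1 := hx.d1
      have hB0 : (0 : ℝ) ≤ x.B := Nat.cast_nonneg _
      have hm1 : (0 : ℝ) ≤ 2 * x.h * x.t := hm0.le
      have : (x.L : ℝ) * (2 * x.h * x.t) * 1 * 1 ≤
          (x.L : ℝ) * (2 * x.h * x.t + 2) ^ 2 * (x.B + 2) * (2 * x.h + 2) := by
        gcongr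
        · nlinarith
        · linarith
        · linarith
      have h2 := mul_le_mul_of_nonneg_left this (by positivity : (0 : ℝ) ≤ 10 ^ 9 * x.δ)
      calc _ = 10 ^ 9 * x.δ * (x.L * (2 * x.h * x.t) * 1 * 1) := by ring
        _ ≤ _ := h2
        _ = _ := by ring
        _ ≤ _ := h1
    generalize ((x.Φ P Q).card : ℝ) = c at hcL' ⊢
    generalize (2 * (x.h : ℝ) * x.t) = m at hdel hm0 ⊢
    have hL0 : (0 : ℝ) < x.L := by linarith
    -- c μ L ≥ 0.98
    have k1 : 98 / 100 ≤ c * x.μ * x.L := by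
      have : x.M * x.μ ≤ (c * x.L + x.L) * x.μ := mul_le_mul_of_nonneg_right hcL' hmu.le
      nlinarith
    have hc0 : 0 ≤ c := by
      by_contra hc
      push Not at hc
      have : c * x.μ * x.L < 0 := by
        have h1 : c * x.μ < 0 := mul_neg_of_neg_of_pos hc hmu
        exact mul_neg_of_neg_of_pos h1 hL0
      linarith
    have k2 : 98 / 100 * x.D ≤ c * x.v * x.L := by
      calc 98 / 100 * (x.D : ℝ) ≤ (c * x.μ * x.L) * x.D :=
            mul_le_mul_of_nonneg_right k1 hDpos.le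
        _ = (c * x.L) * (x.μ * x.D) := by ring
        _ ≤ (c * x.L) * x.v := mul_le_mul_of_nonneg_left hv (by positivity)
        _ = c * x.v * x.L := by ring
    have k3 : (2 * (x.θ + m * x.δ) * x.D + 2) * x.L ≤ 98 / 100 * x.D := by
      have a1 : x.θ * x.L ≤ 1 / 10 := by linarith
      have a2 : m * x.δ * x.L ≤ 1 / 100 := by
        have : 10 ^ 9 * (m * x.δ * x.L) ≤ 1 := by
          calc 10 ^ 9 * (m * x.δ * x.L) = 10 ^ 9 * (x.L : ℝ) * m * x.δ := by ring
            _ ≤ x.θ := hdel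
            _ ≤ 1 := by linarith
        linarith
      have a3 : (2 * (x.θ + m * x.δ) * x.D + 2) * x.L
          = 2 * (x.θ * x.L) * x.D + 2 * (m * x.δ * x.L) * x.D + 2 * x.L := by ring
      rw [a3]
      have a4 : 2 * (x.θ * x.L) * x.D ≤ 2 * (1 / 10) * x.D :=
        mul_le_mul_of_nonneg_right (by linarith) hDpos.le
      have a5 : 2 * (m * x.δ * x.L) * x.D ≤ 2 * (1 / 100) * x.D :=
        mul_le_mul_of_nonneg_right (by linarith) hDpos.le
      linarith
    exact le_of_mul_le_mul_right (k3.trans k2) hL0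

end Pool.Agent.H83.HW
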